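import Mathlib
import Pool.Agent.H71R3.Conj

set_option autoImplicit false

namespace Pool.Agent.Results.MP_f0f681_an.NotConjClosed

open Pool.Agent.H71R3.FS UniformSpace

/-- `f` belongs to the Fourier-Stieltjes algebra `B(G) = C*(G)^*`. -/
def IsFS {G : Type} [Group G] (f : G → ℂ) : Prop :=
  ∃ Φ : CStar G →L[ℂ] ℂ, ∀ g, Φ (dir g) = f g

/-- the set `B` of functions is weak*-closed in `B(G) = C*(G)^*` -/
def WeakStarClosed {G : Type} [Group G] (B : Set (G → ℂ)) : Prop :=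
  IsClosed {Φ : WeakDual ℂ (CStar G) | (fun g => Φ (dir g)) ∈ B}

/-! ### summability -/

theorem summable_list {β : Type} [Fintype β] (q : ℝ) (h0 : 0 ≤ q) (h1 : Fintype.card β * q < 1) :
    Summable fun w : List β => q ^ w.length := by
  have h2 : Summable fun x : (Σ n, Fin n → β) => q ^ x.1 := by
    rw [summable_sigma_of_nonneg (fun x => pow_nonneg h0 _)]
    refine ⟨fun n => Summable.of_finite, ?_⟩
    have : ∀ n : ℕ, ∑' _ : Fin n → β, q ^ n = ((Fintype.card β : ℝ) * q) ^ n := fun n => by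
      rw [tsum_fintype, Finset.sum_const, Finset.card_univ, Fintype.card_fun, Fintype.card_fin,
        nsmul_eq_mul, mul_pow]
      push_cast
      rfl
    simp only [this]
    exact summable_geometric_of_lt_one (by positivity) h1
  have h3 := (List.equivSigmaTuple (α := β)).summable_iff.2 h2
  exact h3

theorem summable_free {α : Type} [Fintype α] [DecidableEq α] (q : ℝ) (h0 : 0 ≤ q)
    (h1 : Fintype.card (α × Bool) * q < 1) : Summable fun x : FreeGroup α => q ^ x.norm :=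
  (summable_list q h0 h1).comp_injective FreeGroup.toWord_injective

/-- the group -/
abbrev Gp : Type := FreeGroup (Fin 50) × Multiplicative (ZMod 3)

/-- the character of order 3 -/
noncomputable def ψ (k : Multiplicative (ZMod 3)) : ℂ := ZMod.stdAddChar k.toAdd

theorem psi_mul (a b : Multiplicative (ZMod 3)) : ψ (a * b) = ψ a * ψ b := by
  unfold ψ
  rw [toAdd_mul, AddChar.map_add_eq_mul]

theorem norm_psi (a : Multiplicative (ZMod 3)) : ‖ψ a‖ = 1 := by
  unfold ψ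
  exact AddChar.norm_apply _ _

theorem psi_ne (a : Multiplicative (ZMod 3)) : ψ a ≠ 0 := by
  intro h
  have := norm_psi a
  rw [h, norm_zero] at this
  exact zero_ne_one this

theorem psi_inv (a : Multiplicative (ZMod 3)) : ψ a⁻¹ = starRingEnd ℂ (ψ a) := by
  have h1 : ψ a⁻¹ * ψ a = 1 := by
    rw [← psi_mul, inv_mul_cancel]
    unfold ψ
    rw [toAdd_one, AddChar.map_zero_eq_one]
  have h2 : starRingEnd ℂ (ψ a) * ψ a = 1 := by
    rw [mul_comm, Complex.mul_conj, Complex.normSq_eq_norm_sq, norm_psi]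
    simp
  exact mul_right_cancel₀ (psi_ne a) (h1.trans h2.symm)

theorem psi_conj (a : Multiplicative (ZMod 3)) : ψ a * starRingEnd ℂ (ψ a) = 1 := by
  rw [Complex.mul_conj, Complex.normSq_eq_norm_sq, norm_psi]
  simp

theorem sum_psi_mul (b : ZMod 3) (hb : b ≠ 0) :
    ∑ k : Multiplicative (ZMod 3), (ZMod.stdAddChar (k.toAdd * b) : ℂ) = 0 := by
  have h := AddChar.sum_mulShift (R := ZMod 3) (R' := ℂ) b (ZMod.isPrimitive_stdAddChar 3)
  rw [if_neg hb] at h
  rw [← Fintype.sum_equiv Multiplicative.toAdd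
    (fun k : Multiplicative (ZMod 3) => (ZMod.stdAddChar (k.toAdd * b) : ℂ))
    (fun k : ZMod 3 => (ZMod.stdAddChar (k * b) : ℂ)) (fun _ => rfl)] at h
  simpa using h

theorem sum_psi : ∑ k : Multiplicative (ZMod 3), ψ k = 0 := by
  have h := sum_psi_mul 1 (by decide)
  simpa [ψ] using h

theorem sum_psi_sq : ∑ k : Multiplicative (ZMod 3), ψ k * ψ k = 0 := by
  have h := sum_psi_mul 2 (by decide)
  rw [← h]
  refine Finset.sum_congr rfl fun k _ => ?_
  unfold ψ
  rw [← AddChar.map_add_eq_mul]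
  congr 1
  ring

/-- the function `f(h,k) = ψ(k) 4^{-|h|}` -/
noncomputable def f (g : Gp) : ℂ := ψ g.2 * (((1 / 4 : ℝ) ^ g.1.norm : ℝ) : ℂ)

theorem f_fs : IsFS f := by
  obtain ⟨E, _, _, π, ξ, hξ⟩ := gns_vector _ (pd_haagerup (α := Fin 50) (1 / 4) (by norm_num)
    (by norm_num))
  obtain ⟨Φ, hΦ, -⟩ := coef_dual (π.comp (MonoidHom.fst (FreeGroup (Fin 50))
    (Multiplicative (ZMod 3)))) ξ ξ
  obtain ⟨Ψ, hΨ⟩ := pd_functional (fun g : Gp => ψ g.2) (pd_char _ (fun g h => by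
    rw [Prod.snd_mul, Prod.snd_inv, psi_mul, psi_inv]) (fun g => by
    rw [Prod.snd_inv, psi_inv]))
  refine ⟨dmul Ψ Φ, fun g => ?_⟩
  rw [dmul_dir, hΨ, hΦ]
  unfold f
  rw [← hξ]
  rfl

theorem norm_f (g : Gp) : ‖f g‖ = (1 / 4 : ℝ) ^ g.1.norm := by
  unfold f
  rw [norm_mul, norm_psi, one_mul, Complex.norm_real, Real.norm_of_nonneg (by positivity)]

theorem norm_f_trans (s t g : Gp) :
    ‖f (s * g * t)‖ ≤ 4 ^ (s.1.norm + t.1.norm) * (1 / 4 : ℝ) ^ g.1.norm := by
  rw [norm_f]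
  have h1 : g.1.norm ≤ s.1.norm + t.1.norm + (s * g * t).1.norm := by
    have h2 : g.1 = s.1⁻¹ * (s * g * t).1 * t.1⁻¹ := by
      rw [Prod.fst_mul, Prod.fst_mul]; group
    have h3 : g.1.norm ≤ (s.1⁻¹ * (s * g * t).1).norm + (t.1⁻¹).norm := by
      conv_lhs => rw [h2]
      exact FreeGroup.norm_mul_le _ _
    have h4 := FreeGroup.norm_mul_le s.1⁻¹ (s * g * t).1
    rw [FreeGroup.norm_inv_eq] at h3 h4
    omega
  have h5 : (1 / 4 : ℝ) ^ (s.1.norm + t.1.norm + (s * g * t).1.norm) ≤ (1 / 4 : ℝ) ^ g.1.norm :=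
    pow_le_pow_of_le_one (by norm_num) (by norm_num) h1
  have h6 : (1 / 4 : ℝ) ^ (s * g * t).1.norm = 4 ^ (s.1.norm + t.1.norm) *
      (1 / 4 : ℝ) ^ (s.1.norm + t.1.norm + (s * g * t).1.norm) := by
    rw [pow_add (1 / 4 : ℝ) (s.1.norm + t.1.norm), ← mul_assoc, ← mul_pow]
    norm_num
  rw [h6]
  exact mul_le_mul_of_nonneg_left h5 (by positivity)

theorem f_good : Good f := by
  intro s t s' t'
  have h1 : Summable fun x : FreeGroup (Fin 50) => ((1 / 4 : ℝ) ^ 4) ^ x.norm :=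
    summable_free _ (by norm_num) (by simp; norm_num)
  have h2 : Summable fun x : Gp => ((1 / 4 : ℝ) ^ 4) ^ x.1.norm * 1 :=
    h1.mul_of_nonneg (Summable.of_finite (f := fun _ : Multiplicative (ZMod 3) => (1 : ℝ)))
      (fun _ => by positivity) (fun _ => zero_le_one)
  refine Summable.of_nonneg_of_le (fun g => sq_nonneg _) (fun g => ?_)
    (h2.mul_left ((4 ^ (s.1.norm + t.1.norm) * 4 ^ (s'.1.norm + t'.1.norm)) ^ 2))
  rw [norm_mul]
  calc (‖f (s * g * t)‖ * ‖f (s' * g * t')‖) ^ 2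
      ≤ ((4 ^ (s.1.norm + t.1.norm) * (1 / 4 : ℝ) ^ g.1.norm) *
        (4 ^ (s'.1.norm + t'.1.norm) * (1 / 4 : ℝ) ^ g.1.norm)) ^ 2 :=
        pow_le_pow_left₀ (by positivity)
          (mul_le_mul (norm_f_trans s t g) (norm_f_trans s' t' g) (norm_nonneg _) (by positivity)) 2
    _ = _ := by
        rw [← pow_mul]
        ring

/-- **The answer to Q1 is negative.** -/
theorem result : ∃ B : Subalgebra ℂ (Gp → ℂ),
    (∀ u ∈ B, IsFS u) ∧ WeakStarClosed (B : Set (Gp → ℂ)) ∧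
    (∀ u ∈ B, ∀ s : Gp, (fun x => u (s * x)) ∈ B) ∧
    (∀ u ∈ B, ∀ s : Gp, (fun x => u (x * s)) ∈ B) ∧
    ∃ u ∈ B, (fun x => starRingEnd ℂ (u x)) ∉ B := by
  have key : ∀ Φ Ψ : CStar Gp →L[ℂ] ℂ, (∀ g, Φ (dir g) = Ψ (dir g)) → Φ = Ψ :=
    fun Φ Ψ h => ext_dir h
  let B : Subalgebra ℂ (Gp → ℂ) :=
    { carrier := {u | ∃ Φ ∈ B2 f, ∀ g, Φ (dir g) = u g}
      mul_mem' := by
        rintro u v ⟨Φ, hΦ, hu⟩ ⟨Ψ, hΨ, hv⟩
        exact ⟨dmul Φ Ψ, dmul_B2 f_good hΦ hΨ, fun g => by rw [dmul_dir, hu, hv]; rfl⟩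
      add_mem' := by
        rintro u v ⟨Φ, hΦ, hu⟩ ⟨Ψ, hΨ, hv⟩
        refine ⟨Φ + Ψ, fun a ha h1 => ?_, fun g => ?_⟩
        · show Φ a + Ψ a = 0
          rw [hΦ a ha h1, hΨ a ha h1, add_zero]
        · show Φ (dir g) + Ψ (dir g) = _
          rw [hu, hv]; rfl
      algebraMap_mem' := by
        intro c
        refine ⟨c • one Gp, fun a ha h1 => ?_, fun g => ?_⟩
        · show c * one Gp a = 0
          rw [h1, mul_zero]
        · show c * one Gp (dir g) = _
          rw [one_dir, mul_one]; rfl }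
  have hB : ∀ u, u ∈ B ↔ ∃ Φ ∈ B2 f, ∀ g, Φ (dir g) = u g := fun _ => Iff.rfl
  refine ⟨B, ?_, ?_, ?_, ?_, f, ?_, ?_⟩
  · rintro u ⟨Φ, -, hu⟩
    exact ⟨Φ, hu⟩
  · have e : {Φ : WeakDual ℂ (CStar Gp) | (fun g => Φ (dir g)) ∈ (B : Set (Gp → ℂ))}
        = ⋂ (a ∈ J1 f) (_ : one Gp a = 0), {Φ : WeakDual ℂ (CStar Gp) | Φ a = 0} := by
      ext Φ
      simp only [Set.mem_iInter, Set.mem_ofPred_eq]
      constructor
      · rintro ⟨Ψ, hΨ, hu⟩ a ha h1
        have h2 : (Ψ : CStar Gp →L[ℂ] ℂ) = WeakDual.toStrongDual Φ := key _ _ hu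
        have h3 := hΨ a ha h1
        rw [h2] at h3
        exact h3
      · intro h
        exact ⟨WeakDual.toStrongDual Φ, fun a ha h1 => h a ha h1, fun g => rfl⟩
    unfold WeakStarClosed
    rw [e]
    refine isClosed_iInter fun a => isClosed_iInter fun _ => isClosed_iInter fun _ => ?_
    exact isClosed_eq (WeakDual.eval_continuous a) continuous_const
  · rintro u ⟨Φ, hΦ, hu⟩ s
    obtain ⟨T, hT⟩ := exists_left s
    refine ⟨Φ.comp T, comp_B2 (fun a ha => left_J1 hT ha) (fun g => by rw [hT, one_dir]) hΦ,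
      fun g => ?_⟩
    rw [ContinuousLinearMap.comp_apply, hT, hu]
  · rintro u ⟨Φ, hΦ, hu⟩ s
    obtain ⟨T, hT⟩ := exists_right s
    refine ⟨Φ.comp T, comp_B2 (fun a ha => right_J1 hT ha) (fun g => by rw [hT, one_dir]) hΦ,
      fun g => ?_⟩
    rw [ContinuousLinearMap.comp_apply, hT, hu]
  · obtain ⟨Φ, hΦ⟩ := f_fs
    exact ⟨Φ, fun a ha _ => ha.2 Φ ⟨1, 1, fun g => by rw [hΦ]; simp⟩, hΦ⟩
  · rintro ⟨Φ, hΦ, hu⟩
    obtain ⟨b, hb1, hb2⟩ := exists_b (α := Fin 50) (1 / 4) (by norm_num) (by norm_num) (by simp)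
      (by
        have h1 : (Fintype.card (Fin 50 × Bool) : ℝ) = 10 ^ 2 := by simp; norm_num
        rw [h1, Real.sqrt_sq (by norm_num)]; norm_num)
    obtain ⟨T, hT⟩ := exists_push (MonoidHom.inl (FreeGroup (Fin 50)) (Multiplicative (ZMod 3)))
    choose R hR using fun k : Multiplicative (ZMod 3) => exists_right (G := Gp) (1, k)
    let ι : CStar (FreeGroup (Fin 50)) →L[ℂ] CStar Gp :=
      ∑ k : Multiplicative (ZMod 3), ψ k • (R k).comp T
    have hι : ∀ (Θ : CStar Gp →L[ℂ] ℂ) (h : FreeGroup (Fin 50)),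
        Θ (ι (dir h)) = ∑ k : Multiplicative (ZMod 3), ψ k * Θ (dir (h, k)) := by
      intro Θ h
      show Θ ((∑ k : Multiplicative (ZMod 3), ψ k • (R k).comp T) (dir h)) = _
      rw [sum_apply, map_sum]
      refine Finset.sum_congr rfl fun k _ => ?_
      rw [smul_apply, map_smul, ContinuousLinearMap.comp_apply, hT, hR, smul_eq_mul]
      have : (MonoidHom.inl (FreeGroup (Fin 50)) (Multiplicative (ZMod 3)) h) * ((1, k) : Gp)
          = (h, k) := by
        rw [MonoidHom.inl_apply, Prod.mk_mul_mk, mul_one, one_mul]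
      rw [this]
    have hJ : ι b ∈ J1 f := by
      refine ⟨fun Θ hΘ => ?_, fun Θ hΘ => ?_⟩
      · refine hb1 (Θ.comp ι) ?_
        have h1 : ∀ k : Multiplicative (ZMod 3), Summable fun h : FreeGroup (Fin 50) =>
            ‖Θ (dir (h, k))‖ ^ 2 := fun k =>
          hΘ.comp_injective (i := fun h : FreeGroup (Fin 50) => ((h, k) : Gp))
            (fun a b hab => (Prod.mk.inj hab).1)
        have h2 : Summable fun h : FreeGroup (Fin 50) =>
            3 * ∑ k : Multiplicative (ZMod 3), ‖Θ (dir (h, k))‖ ^ 2 :=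
          (summable_sum fun k _ => h1 k).mul_left 3
        refine Summable.of_nonneg_of_le (fun _ => sq_nonneg _) (fun h => ?_) h2
        rw [ContinuousLinearMap.comp_apply, hι]
        have h3 : ‖∑ k : Multiplicative (ZMod 3), ψ k * Θ (dir (h, k))‖
            ≤ ∑ k : Multiplicative (ZMod 3), ‖Θ (dir (h, k))‖ := by
          refine norm_sum_le_of_le _ fun k _ => ?_
          rw [norm_mul, norm_psi, one_mul]
        refine (pow_le_pow_left₀ (norm_nonneg _) h3 2).trans ?_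
        refine (sq_sum_le_card_mul_sum_sq).trans (le_of_eq ?_)
        rw [Finset.card_univ]
        norm_num [ZMod.card]
      · obtain ⟨s, t, hst⟩ := hΘ
        have h1 : Θ.comp ι = 0 := by
          refine ext_dir fun h => ?_
          rw [ContinuousLinearMap.comp_apply, hι]
          have : ∀ k : Multiplicative (ZMod 3), ψ k * Θ (dir (h, k)) =
              (ψ s.2 * ψ t.2 * (((1 / 4 : ℝ) ^ (s.1 * h * t.1).norm : ℝ) : ℂ)) * (ψ k * ψ k) := by
            intro k
            rw [hst]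
            unfold f
            rw [Prod.snd_mul, Prod.snd_mul, Prod.fst_mul, Prod.fst_mul, psi_mul, psi_mul]
            ring
          simp only [this]
          rw [← Finset.mul_sum, sum_psi_sq, mul_zero]
          rfl
        show (Θ.comp ι) b = 0
        rw [h1]; rfl
    have h1 : one Gp (ι b) = 0 := by
      have h2 : (one Gp).comp ι = 0 := by
        refine ext_dir fun h => ?_
        rw [ContinuousLinearMap.comp_apply, hι]
        simp only [one_dir, mul_one]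
        rw [sum_psi]; rfl
      show ((one Gp).comp ι) b = 0
      rw [h2]; rfl
    have h3 : Φ (ι b) = 0 := hΦ _ hJ h1
    refine hb2 ((1 / 3 : ℂ) • Φ.comp ι) (fun h => ?_) ?_
    · show (1 / 3 : ℂ) * Φ (ι (dir h)) = _
      rw [hι]
      have : ∀ k : Multiplicative (ZMod 3), ψ k * Φ (dir (h, k)) =
          (((1 / 4 : ℝ) ^ h.norm : ℝ) : ℂ) := by
        intro k
        rw [hu]
        show ψ k * starRingEnd ℂ (ψ k * (((1 / 4 : ℝ) ^ h.norm : ℝ) : ℂ)) = _
        rw [map_mul, ← mul_assoc, psi_conj, one_mul, Complex.conj_ofReal]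
      simp only [this]
      rw [Finset.sum_const, Finset.card_univ]
      have hc : Fintype.card (Multiplicative (ZMod 3)) = 3 := by
        rw [Fintype.card_multiplicative, ZMod.card]
      rw [hc, nsmul_eq_mul, ← mul_assoc]
      norm_num
    · show (1 / 3 : ℂ) * Φ (ι b) = 0
      rw [h3, mul_zero]

end Pool.Agent.Results.MP_f0f681_an.NotConjClosed
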